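import Pool.Agent.H98.BQ.Main

/-!
# `f(α) = O(log^2(1/α) log log(1/α))`: subspaces of small codimension in `2A - 2A` over `𝔽₂ⁿ`

`f (α)` is the least `k` such that for every `n ≥ 1` and every `A ⊆ 𝔽₂ⁿ` of density at least `α` the
set `2A - 2A` contains a linear subspace of codimension at most `k`. We show
`f (α) ≤ C log^2(1/α) log(2 + log(1/α))` for `α ≤ 1/2`, the same over every prime field with an
absolute constant, and the version for sets with large additive energy: if `|A|^3 ≤ K E(A)` then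
`2A - 2A` contains a subspace of codimension at most
`C (log(pⁿ/|A|) + log^2(2K) log^3(2 + log K))`.

Proof. Let `B = A + A`. Let `σ_0` be the uniform law on `A` and let `σ_(i+1)` be the law with weights
proportional to `exp (q P(x + S_i ∈ B))`, where `S_i` has the law `σ_i` and `q` is about
`log(1/α)` (respectively `log K log log K`). By Gibbs' variational principle the numbers
`H(σ_i) + log ∑_x exp (q P(x + S_i ∈ B))` do not decrease, so `x + S_i ∈ B` has probability close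
to one for `x = S_(i+1)`, for all `i`: all steps take place in the same set `B`. Let `T` be a random
element of `A`. If one is given `m` samples `S_i + T`, then the entropy of `T` decreases at most by
`m (H(S_i + T) - H(S_i))` in the mean, and, conditionally on the samples, the entropy of
`S_(i+1) - T` is at most `H(S_(i+1)) + q^2/m` in the mean. So with `m = q, 2q, 4q, …, q^2` each
step costs `O(q^2)`, and after `O(log q)` steps one has `H(S - T) ≤ H(S) + 1/16` for some `T` with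
`H(T) ≥ log |A| - O(q^2 log q)` and some `S` such that `P(S + S' ∈ B) ≥ 3/4` holds for all values
of `S`; hence the translates of the support of `S` by the annihilator of the large spectrum of `T`
meet this support. An entropic version of Chang's theorem bounds the codimension.
See `Pool/Agent/H98/BQ` and `Pool/Agent/H98/BG`.
-/

set_option autoImplicit false

namespace Pool.Agent.Results.MP_68cffc_co.QuadraticLogarithm

/-- For every `n ≥ 1` and every `A ⊆ 𝔽₂ⁿ` of density at least `α` the set `2A - 2A` contains a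
linear subspace of codimension at most `k`. -/
def HasBound (α : ℝ) (k : ℕ) : Prop :=
  ∀ (n : ℕ) (A : Finset (Fin n → ZMod 2)), 1 ≤ n → α * 2 ^ n ≤ (A.card : ℝ) →
    ∃ W : Submodule (ZMod 2) (Fin n → ZMod 2), n ≤ Module.finrank (ZMod 2) W + k ∧
      ∀ x ∈ W, ∃ a ∈ A, ∃ b ∈ A, ∃ c ∈ A, ∃ d ∈ A, x = a + b - c - d

/-- The function `f` of the problem. -/
noncomputable def f (α : ℝ) : ℕ := sInf {k | HasBound α k}

/-- The additive energy: the number of the quadruples `(a, b, c, d)` of elements of `A` with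
`a + b = c + d`. -/
def energy {p n : ℕ} (A : Finset (Fin n → ZMod p)) : ℕ :=
  ((A ×ˢ A ×ˢ A ×ˢ A).filter fun q => q.1 + q.2.1 = q.2.2.1 + q.2.2.2).card

open scoped Pointwise in
theorem energy_eq {p n : ℕ} (A : Finset (Fin n → ZMod p)) : energy A = A.addEnergy A := by
  rw [Finset.addEnergy_eq_card_filter]
  unfold energy
  refine Finset.card_nbij' (fun p => ((p.1, p.2.1), (p.2.2.1, p.2.2.2)))
    (fun p => (p.1.1, p.1.2, p.2.1, p.2.2)) ?_ ?_ ?_ ?_
  · intro p hp
    simp only [Finset.coe_filter, Finset.mem_product, Set.mem_ofPred_eq] at hp ⊢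
    exact ⟨⟨⟨hp.1.1, hp.1.2.1⟩, hp.1.2.2.1, hp.1.2.2.2⟩, hp.2⟩
  · intro p hp
    simp only [Finset.coe_filter, Finset.mem_product, Set.mem_ofPred_eq] at hp ⊢
    exact ⟨⟨hp.1.1.1, hp.1.1.2, hp.1.2.1, hp.1.2.2⟩, hp.2⟩
  · intro p _
    rfl
  · intro p _
    rfl

open scoped Pointwise in
theorem unfold2 {p n : ℕ} (A : Finset (Fin n → ZMod p)) (x : Fin n → ZMod p)
    (h : x ∈ 2 • A - 2 • A) : ∃ a ∈ A, ∃ b ∈ A, ∃ c ∈ A, ∃ d ∈ A, x = a + b - c - d := by
  rw [two_nsmul] at h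
  obtain ⟨y, hy, z, hz, rfl⟩ := Finset.mem_sub.1 h
  obtain ⟨a, ha, b, hb, rfl⟩ := Finset.mem_add.1 hy
  obtain ⟨c, hc, d, hd, rfl⟩ := Finset.mem_add.1 hz
  exact ⟨a, ha, b, hb, c, hc, d, hd, by abel⟩

theorem logs (α : ℝ) (hα : 0 < α) (hα2 : α ≤ 1 / 2) : Real.log 2 ≤ Real.log (1 / α) := by
  apply Real.log_le_log (by norm_num)
  rw [le_div_iff₀ hα]
  linarith

/-- the version with density -/
theorem fp_bound : ∃ C : ℝ, 0 < C ∧ ∀ (p : ℕ) [Fact p.Prime] (n : ℕ)
    (A : Finset (Fin n → ZMod p)) (α : ℝ),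
      0 < α → α ≤ 1 / 2 → α * (p : ℝ) ^ n ≤ (A.card : ℝ) →
      ∃ W : Submodule (ZMod p) (Fin n → ZMod p),
        (n : ℝ) ≤ Module.finrank (ZMod p) W +
          C * (Real.log (1 / α) ^ 2 * Real.log (2 + Real.log (1 / α))) ∧
        ∀ x ∈ W, ∃ a ∈ A, ∃ b ∈ A, ∃ c ∈ A, ∃ d ∈ A, x = a + b - c - d := by
  obtain ⟨C, hC, h⟩ := Pool.Agent.H98.BQ.fqd Pool.Agent.H98.BQ.fgdMain
  refine ⟨C, hC, ?_⟩
  intro p hp n A α hα hα2 hA
  have hp0 : (0 : ℝ) < p := by exact_mod_cast hp.out.pos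
  have hpn : (0 : ℝ) < (p : ℝ) ^ n := by positivity
  have hne : A.Nonempty := by
    rw [← Finset.card_pos]
    have : (0 : ℝ) < A.card := lt_of_lt_of_le (by positivity) hA
    exact_mod_cast this
  obtain ⟨W, hW1, hW2⟩ := h p n A (1 / α) hne
    (by rw [le_div_iff₀ hα]; linarith)
    (by rw [div_mul_eq_mul_div, one_mul, le_div_iff₀ hα]; linarith)
  exact ⟨W, hW1, fun x hx => unfold2 A x (hW2 x hx)⟩

/-- the version with energy -/
theorem fp_energy : ∃ C : ℝ, 0 < C ∧ ∀ (p : ℕ) [Fact p.Prime] (n : ℕ)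
    (A : Finset (Fin n → ZMod p)) (K : ℝ),
    A.Nonempty → 1 ≤ K → (A.card : ℝ) ^ 3 ≤ K * energy A →
    ∃ W : Submodule (ZMod p) (Fin n → ZMod p),
      (n : ℝ) ≤ Module.finrank (ZMod p) W + C * (Real.log ((p : ℝ) ^ n / A.card) +
        Real.log (2 * K) ^ 2 * Real.log (2 + Real.log K) ^ 3) ∧
      ∀ x ∈ W, ∃ a ∈ A, ∃ b ∈ A, ∃ c ∈ A, ∃ d ∈ A, x = a + b - c - d := by
  obtain ⟨C, c, hC, hc, h⟩ := Pool.Agent.H98.BQ.energy Pool.Agent.H98.BQ.fgkMain
  refine ⟨6 * C, by positivity, ?_⟩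
  intro p hp n A K hA hK hE
  rw [energy_eq] at hE
  have hcard : (Fintype.card (Fin n → ZMod p) : ℝ) = (p : ℝ) ^ n := by
    rw [Fintype.card_fun, ZMod.card, Fintype.card_fin]; push_cast; rfl
  obtain ⟨Γ, hΓ, hy⟩ := h (Fin n → ZMod p) A K hA hK hE
  obtain ⟨V, hV, hVχ⟩ := Pool.Agent.H98.BG.FqL.exists_submodule Γ
  rw [hcard] at hΓ hy
  have hcA : (0 : ℝ) < A.card := by exact_mod_cast hA.card_pos
  have hcardA : (A.card : ℝ) ≤ (p : ℝ) ^ n := by
    rw [← hcard]; exact_mod_cast Finset.card_le_univ A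
  have hpn : (0 : ℝ) < (p : ℝ) ^ n := by linarith
  have hL0 : 0 ≤ Real.log ((p : ℝ) ^ n / A.card) := by
    apply Real.log_nonneg
    rw [le_div_iff₀ hcA]
    linarith
  have hl2 : (0.69 : ℝ) ≤ Real.log 2 := by linarith [Real.log_two_gt_d9]
  have hl2' : Real.log 2 ≤ 0.7 := by linarith [Real.log_two_lt_d9]
  have hlog2 : Real.log (2 * (p : ℝ) ^ n / A.card) =
      Real.log 2 + Real.log ((p : ℝ) ^ n / A.card) := by
    rw [mul_div_assoc, Real.log_mul (by norm_num) (by positivity)]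
  have hlK : 0 ≤ Real.log K := Real.log_nonneg hK
  have h2K : 0.69 ≤ Real.log (2 * K) := by
    rw [Real.log_mul (by norm_num) (by linarith)]; linarith
  have hMK : 0.69 ≤ Real.log (2 + Real.log K) :=
    hl2.trans (Real.log_le_log (by norm_num) (by linarith))
  have hT : (0.15 : ℝ) ≤ Real.log (2 * K) ^ 2 * Real.log (2 + Real.log K) ^ 3 := by
    have a1 : (0.69 : ℝ) ^ 2 ≤ Real.log (2 * K) ^ 2 := pow_le_pow_left₀ (by norm_num) h2K 2
    have a2 : (0.69 : ℝ) ^ 3 ≤ Real.log (2 + Real.log K) ^ 3 :=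
      pow_le_pow_left₀ (by norm_num) hMK 3
    calc (0.15 : ℝ) ≤ 0.69 ^ 2 * 0.69 ^ 3 := by norm_num
      _ ≤ _ := mul_le_mul a1 a2 (by norm_num) (by positivity)
  refine ⟨V, ?_, ?_⟩
  · have h4 : (n : ℝ) ≤ Module.finrank (ZMod p) V + Γ.card := by exact_mod_cast hV
    have h5 : (Γ.card : ℝ) ≤ 6 * C * (Real.log ((p : ℝ) ^ n / A.card) +
        Real.log (2 * K) ^ 2 * Real.log (2 + Real.log K) ^ 3) := by
      refine hΓ.trans ?_
      rw [hlog2, mul_comm 6 C, mul_assoc]
      apply mul_le_mul_of_nonneg_left _ hC.le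
      linarith
    linarith
  · intro v hv
    apply unfold2
    apply hy
    intro χ hχ
    rw [hVχ v hv χ hχ, sub_self, norm_zero]
    exact div_nonneg hc.le (by linarith)

/-- There is an absolute constant `C > 0` such that
(1) for `0 < α ≤ 1/2` the number `f (α)` of the problem is at most
`C log^2(1/α) log(2 + log(1/α))`;
(2) the same bound holds over every prime field: if `A ⊆ 𝔽_pⁿ` has density at least `α` then
`2A - 2A` contains a linear subspace of codimension at most `C log^2(1/α) log(2 + log(1/α))`;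
(3) if `A ⊆ 𝔽_pⁿ` is nonempty, `K ≥ 1` and `|A|^3 ≤ K E(A)` then `2A - 2A` contains a linear
subspace of codimension at most `C (log(pⁿ/|A|) + log^2(2K) log^3(2 + log K))`. -/
theorem result : ∃ C : ℝ, 0 < C ∧
    (∀ α : ℝ, 0 < α → α ≤ 1 / 2 → HasBound α (f α) ∧
      (f α : ℝ) ≤ C * (Real.log (1 / α) ^ 2 * Real.log (2 + Real.log (1 / α)))) ∧
    (∀ (p : ℕ) [Fact p.Prime] (n : ℕ) (A : Finset (Fin n → ZMod p)) (α : ℝ),
      0 < α → α ≤ 1 / 2 → α * (p : ℝ) ^ n ≤ (A.card : ℝ) →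
      ∃ W : Submodule (ZMod p) (Fin n → ZMod p),
        (n : ℝ) ≤ Module.finrank (ZMod p) W +
          C * (Real.log (1 / α) ^ 2 * Real.log (2 + Real.log (1 / α))) ∧
        ∀ x ∈ W, ∃ a ∈ A, ∃ b ∈ A, ∃ c ∈ A, ∃ d ∈ A, x = a + b - c - d) ∧
    (∀ (p : ℕ) [Fact p.Prime] (n : ℕ) (A : Finset (Fin n → ZMod p)) (K : ℝ),
      A.Nonempty → 1 ≤ K → (A.card : ℝ) ^ 3 ≤ K * energy A →
      ∃ W : Submodule (ZMod p) (Fin n → ZMod p),
        (n : ℝ) ≤ Module.finrank (ZMod p) W +
          C * (Real.log ((p : ℝ) ^ n / A.card) +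
            Real.log (2 * K) ^ 2 * Real.log (2 + Real.log K) ^ 3) ∧
        ∀ x ∈ W, ∃ a ∈ A, ∃ b ∈ A, ∃ c ∈ A, ∃ d ∈ A, x = a + b - c - d) := by
  obtain ⟨C1, hC1, h1⟩ := fp_bound
  obtain ⟨C2, hC2, h2⟩ := fp_energy
  refine ⟨C1 + C2, by positivity, ?_, ?_, ?_⟩
  · intro α hα hα2
    have hlog := logs α hα hα2
    have hl2 : 0 < Real.log 2 := Real.log_pos (by norm_num)
    have hM : 0 ≤ Real.log (2 + Real.log (1 / α)) := Real.log_nonneg (by linarith)
    have hpos : 0 ≤ C1 * (Real.log (1 / α) ^ 2 * Real.log (2 + Real.log (1 / α))) := by positivity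
    have hb : HasBound α
        ⌊C1 * (Real.log (1 / α) ^ 2 * Real.log (2 + Real.log (1 / α)))⌋₊ := by
      intro n A _ hA
      have : Fact (Nat.Prime 2) := ⟨Nat.prime_two⟩
      obtain ⟨W, hW1, hW2⟩ := h1 2 n A α hα hα2 (by push_cast; exact hA)
      refine ⟨W, ?_, hW2⟩
      have h3 : ((n - Module.finrank (ZMod 2) W : ℕ) : ℝ) ≤
          C1 * (Real.log (1 / α) ^ 2 * Real.log (2 + Real.log (1 / α))) := by
        rcases le_total n (Module.finrank (ZMod 2) W) with h4 | h4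
        · rw [Nat.sub_eq_zero_of_le h4]
          simpa using hpos
        · rw [Nat.cast_sub h4]
          linarith
      have h4 := Nat.le_floor h3
      omega
    have hne : {k | HasBound α k}.Nonempty := ⟨_, hb⟩
    refine ⟨Nat.sInf_mem hne, ?_⟩
    have h3 : f α ≤ ⌊C1 * (Real.log (1 / α) ^ 2 * Real.log (2 + Real.log (1 / α)))⌋₊ :=
      Nat.sInf_le hb
    have h4 : (f α : ℝ) ≤
        (⌊C1 * (Real.log (1 / α) ^ 2 * Real.log (2 + Real.log (1 / α)))⌋₊ : ℝ) := by
      exact_mod_cast h3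
    have h5 := Nat.floor_le hpos
    have h6 : 0 ≤ C2 * (Real.log (1 / α) ^ 2 * Real.log (2 + Real.log (1 / α))) := by positivity
    linarith
  · intro p hp n A α hα hα2 hA
    obtain ⟨W, hW1, hW2⟩ := h1 p n A α hα hα2 hA
    refine ⟨W, hW1.trans ?_, hW2⟩
    have hlog := logs α hα hα2
    have hl2 : 0 < Real.log 2 := Real.log_pos (by norm_num)
    have hM : 0 ≤ Real.log (2 + Real.log (1 / α)) := Real.log_nonneg (by linarith)
    have h6 : 0 ≤ C2 * (Real.log (1 / α) ^ 2 * Real.log (2 + Real.log (1 / α))) := by positivity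
    linarith
  · intro p hp n A K hA hK hE
    obtain ⟨W, hW1, hW2⟩ := h2 p n A K hA hK hE
    refine ⟨W, hW1.trans ?_, hW2⟩
    have hApos : (0 : ℝ) < A.card := by exact_mod_cast hA.card_pos
    have hlogA : 0 ≤ Real.log ((p : ℝ) ^ n / A.card) := by
      apply Real.log_nonneg
      rw [one_le_div hApos]
      have h1 : A.card ≤ p ^ n := by
        have := Finset.card_le_univ A
        rwa [Fintype.card_fun, Fintype.card_fin, ZMod.card] at this
      exact_mod_cast h1
    have hlK : 0 ≤ Real.log K := Real.log_nonneg hK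
    have hM : 0 ≤ Real.log (2 + Real.log K) := Real.log_nonneg (by linarith)
    have h6 : 0 ≤ C1 * (Real.log ((p : ℝ) ^ n / A.card) +
        Real.log (2 * K) ^ 2 * Real.log (2 + Real.log K) ^ 3) := by positivity
    linarith

end Pool.Agent.Results.MP_68cffc_co.QuadraticLogarithm
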